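import Pool.Agent.Helper97.Speed.WalkDefs
import Pool.Agent.Helper97.Speed.Hull
import Pool.Agent.Helper32.Speed.Net

/-! # Capacities in a half-plane -/

namespace Pool.Agent.Helper97.Speed

open MeasureTheory Filter Topology ENNReal

namespace PMap

variable {m : PMap}

lemma capaux_le_vol_seg (h : m.IsHalfPlane) (N : ℕ) : N ≤ h.pre.net.vol (m.seg N) := by
  classical
  have h1 : (m.seg N).card = N := by
    rw [seg, Finset.card_image_of_injective, Finset.card_range]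
    intro i k hik
    have : ((i : ℕ) : ℤ) = k := h.bd_simple _ _ hik
    exact_mod_cast this
  calc N = ∑ x ∈ m.seg N, 1 := by rw [Finset.sum_const, h1, smul_eq_mul, mul_one]
    _ ≤ ∑ x ∈ m.seg N, (h.pre.net.out x).card := by
        apply Finset.sum_le_sum
        intro x hx
        obtain ⟨i, -, rfl⟩ := mem_seg.1 hx
        rw [Nat.one_le_iff_ne_zero, ← Nat.pos_iff_ne_zero, Finset.card_pos]
        exact ⟨m.bd i, Net.mem_out _ |>.2 ⟨mem_E_of_mem (h.bd_mem i), rfl⟩⟩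

lemma capaux_vol_mono (h : m.IsHalfPlane) {A K : Finset ℕ} (hAK : A ⊆ K) :
    h.pre.net.vol A ≤ h.pre.net.vol K :=
  Finset.sum_le_sum_of_subset hAK

theorem cap_seg (h : m.IsHalfPlane) {M N₀ N : ℕ} (hM : 0 < M) (hT : m.Thr M N₀)
    (hN : 4 * N₀ ≤ N) (hN0 : 0 < N) :
    ENNReal.ofReal (N / (4 * M) ^ 2) ≤ h.pre.net.cap (m.seg N) := by
  have hM' : (0 : ℝ) < M := by exact_mod_cast hM
  have h1 := h.pre.net.cap_ge_of_expansion (m.seg N) (1 / (4 * M)) (by positivity) (by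
    intro K hK
    obtain ⟨m₂, j, b, n, T, R, hj, hjb, hn, hvol⟩ := exists_hull h N hN0 K hK
    have h2 := hT m₂ j b n T R hj (by omega)
    have h3 := (capaux_le_vol_seg h N).trans (capaux_vol_mono h hK.1)
    have h4 : M * n ≤ M * h.pre.net.bdry K := Nat.mul_le_mul_left M hn
    have h5 : h.pre.net.vol K ≤ 4 * (M * h.pre.net.bdry K) := by omega
    have h6 : (h.pre.net.vol K : ℝ) ≤ 4 * (M * h.pre.net.bdry K) := by exact_mod_cast h5
    rw [one_div, inv_mul_le_iff₀ (by positivity)]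
    linarith)
  refine le_trans (ENNReal.ofReal_le_ofReal ?_) h1
  have h2 : (N : ℝ) ≤ h.pre.net.vol (m.seg N) := by exact_mod_cast capaux_le_vol_seg h N
  rw [div_eq_mul_inv, mul_comm]
  have h3 : ((4 * (M : ℝ)) ^ 2)⁻¹ = (1 / (4 * (M : ℝ))) ^ 2 := by
    rw [one_div, inv_pow]
  rw [h3]
  exact mul_le_mul_of_nonneg_left h2 (by positivity)

lemma capaux_walk_bd (h : m.IsHalfPlane) (n : ℕ) : ∀ k : ℤ,
    h.pre.net.Walk (m.V k) n (m.V (k + n)) := by
  induction n with
  | zero =>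
    intro k
    have : k + ((0 : ℕ) : ℤ) = k := by simp
    rw [this]
    exact Net.Walk.nil _
  | succ n ih =>
    intro k
    have h1 := ih (k + 1)
    have h2 : k + 1 + (n : ℤ) = k + ((n + 1 : ℕ) : ℤ) := by push_cast; ring
    rw [h2] at h1
    have h3 : m.V (k + 1) = h.pre.net.org (h.pre.net.rev (m.bd k)) := (h.org_rev_bd k).symm
    rw [h3] at h1
    exact Net.Walk.cons (mem_E_of_mem (h.bd_mem k)) h1

theorem cap_root (h : m.IsHalfPlane) {M N₀ : ℕ} (hM : 0 < M) (hT : m.Thr M N₀) :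
    ENNReal.ofReal (1 / ((8 * M) ^ 2 * (N₀ + 1))) ≤ h.pre.net.cap {m.V 0} := by
  have hM' : (1 : ℝ) ≤ M := by exact_mod_cast hM
  have hN' : (0 : ℝ) ≤ N₀ := Nat.cast_nonneg _
  have h1 := cap_seg h (N := 4 * (N₀ + 1)) hM hT (by omega) (by omega)
  have h2 := h.pre.net.cap_singleton_ge (m.seg (4 * (N₀ + 1))) ⟨m.V 0, mem_seg.2 ⟨0, by omega, rfl⟩⟩
    (m.V 0) (4 * (N₀ + 1)) (by omega) (by
      intro a ha
      obtain ⟨i, hi, rfl⟩ := mem_seg.1 ha
      refine ⟨i, hi.le, ?_⟩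
      have := capaux_walk_bd h i 0
      rwa [zero_add] at this)
  refine le_trans ?_ h2
  rw [le_min_iff]
  constructor
  · apply ENNReal.ofReal_le_ofReal
    push_cast
    apply one_div_le_one_div_of_le (by positivity)
    nlinarith [mul_nonneg hN' hN', sq_nonneg ((M : ℝ) - 1)]
  · rw [ENNReal.le_div_iff_mul_le (by simp) (by simp)]
    refine le_trans ?_ h1
    have h4 : (4 : ℝ≥0∞) = ENNReal.ofReal 4 := by simp
    rw [h4, ← ENNReal.ofReal_mul (by positivity)]
    apply ENNReal.ofReal_le_ofReal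
    push_cast
    rw [div_mul_eq_mul_div, div_le_div_iff₀ (by positivity) (by positivity)]
    have h5 : (1 : ℝ) ≤ N₀ + 1 := by linarith
    nlinarith [sq_nonneg (M : ℝ), mul_nonneg (sq_nonneg (M : ℝ)) hN',
      mul_nonneg (mul_nonneg (sq_nonneg (M : ℝ)) hN') hN']

end PMap

end Pool.Agent.Helper97.Speed
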